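import Mathlib

namespace Pool.Agent.Results.MP_19ca7b_an.No

open MeasureTheory Complex Filter Topology Set
open scoped Real ComplexConjugate

/-- the space of square integrable functions on the line -/
noncomputable abbrev H := Lp ℂ 2 (volume : Measure ℝ)

/-- the short-time Fourier transform with window g -/
noncomputable def V (g f : H) (z : ℝ × ℝ) : ℂ :=
  ∫ t, f t * conj (g (t - z.1)) * exp (-2 * π * I * z.2 * t)

/-- the lattice generated by the columns of a matrix -/
def lattice (A : Matrix (Fin 2) (Fin 2) ℝ) : Set (ℝ × ℝ) :=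
  {z | ∃ m n : ℤ, z = (A 0 0 * m + A 0 1 * n, A 1 0 * m + A 1 1 * n)}

/-- the phase retrieval uniqueness property -/
def Uniq (g : H) (L : Set (ℝ × ℝ)) : Prop :=
  ∀ f h : H, (∀ z ∈ L, ‖V g f z‖ = ‖V g h z‖) → ∃ a : ℝ, f = exp (I * a) • h

theorem sq {μ : Measure ℝ} (w : Lp ℂ 2 μ) : ‖w‖ ^ 2 = ∫ t, ‖w t‖ ^ 2 ∂μ := by
  rw [← real_inner_self_eq_norm_sq, L2.inner_def]
  simp

theorem lin (g : H) (z : ℝ × ℝ) : ∃ T : H →ₗ[ℂ] ℂ, ∀ f, V g f z = T f := by
  have h1 : MemLp (fun t : ℝ => g (t - z.1)) 2 :=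
    (Lp.memLp g).comp_measurePreserving (measurePreserving_sub_right _ z.1)
  have h2 : MemLp (fun t : ℝ => g (t - z.1) * exp (2 * π * I * z.2 * t)) 2 :=
    h1.congr_norm (h1.1.mul (by fun_prop)) (.of_forall fun t => by simp [norm_exp])
  refine ⟨innerSL ℂ (h2.toLp _), fun f => ?_⟩
  simp only [ContinuousLinearMap.coe_coe, innerSL_apply_apply, L2.inner_def]
  refine integral_congr_ae ?_
  filter_upwards [h2.coeFn_toLp] with t ht
  rw [ht]
  simp [← exp_conj, mul_assoc, map_ofNat]

theorem inf (W : Submodule ℝ H) [FiniteDimensional ℝ W] (g : H) {s : ℝ} (hs : s ≠ 0) (u : ℕ → H)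
    (h1 : ∀ n, u n ∈ W) (h2 : ∀ n, ∀ᵐ t, ‖u n t‖ = ‖g (n * s - t)‖) : g = 0 := by
  have h3 : ∀ n, ‖u n‖ = ‖g‖ := fun n => by
    rw [← sq_eq_sq₀ (norm_nonneg _) (norm_nonneg _), sq, sq,
      ← integral_sub_left_eq_self (fun t => ‖g t‖ ^ 2) _ (n * s)]
    exact integral_congr_ae ((h2 n).mono fun t ht => by simp only [ht])
  obtain ⟨v, -, r, h4, h5⟩ := (isCompact_closedBall (0 : W) ‖g‖).tendsto_subseq
    (x := fun n => ⟨u n, h1 n⟩) fun n => by simp [h3]
  replace h5 : Tendsto (fun n => u (r n)) atTop (𝓝 v) := (continuous_subtype_val.tendsto v).comp h5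
  have h6 : ‖(v : H)‖ = ‖g‖ := tendsto_nhds_unique h5.norm (by simp [h3])
  have h7 : ∀ R : ℕ, ∀ᵐ t, t ∈ Icc (-R : ℝ) R → (v : H) t = 0 := fun R => by
    set T := LpToLpRestrictCLM ℝ ℂ ℝ volume 2 (Icc (-R : ℝ) R) with hT
    have h7 : Tendsto (fun n => ‖T (u n)‖ ^ 2) atTop (𝓝 (∫ t : ℝ, 0)) := by
      refine (tendsto_integral_of_dominated_convergence (F := fun (n : ℕ) t =>
        (Icc (n * s - R) (n * s + R)).indicator (fun t => ‖g t‖ ^ 2) t) (fun t => ‖g t‖ ^ 2)
        (fun n => ((Lp.memLp g).1.norm.pow 2).indicator measurableSet_Icc)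
        (Lp.memLp g).norm.integrable_sq (fun n => .of_forall fun t =>
          (norm_indicator_le_norm_self _ _).trans_eq (by simp)) (.of_forall fun t => ?_)).congr
        fun n => ?_
      · refine tendsto_const_nhds.congr' ?_
        filter_upwards [(tendsto_natCast_atTop_atTop.atTop_mul_const
          (abs_pos.2 hs)).eventually_gt_atTop (|t| + R)] with n hn
        refine (indicator_of_notMem (fun h => ?_) _).symm
        rw [← Nat.abs_cast n, ← abs_mul] at hn
        have := abs_sub_abs_le_abs_sub (n * s) t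
        have : |n * s - t| ≤ R := abs_le.2 ⟨by linarith [h.2], by linarith [h.1]⟩
        linarith
      · rw [sq, ← integral_sub_left_eq_self _ _ (n * s), integral_congr_ae
          ((LpToLpRestrictCLM_coeFn ℝ _ (u n)).mono fun t ht => by rw [ht]),
          ← integral_indicator measurableSet_Icc]
        refine integral_congr_ae ((h2 n).mono fun t ht => ?_)
        simp only [indicator, ht, mem_Icc]
        congr 1
        exact propext ⟨fun h => ⟨by linarith [h.2], by linarith [h.1]⟩,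
          fun h => ⟨by linarith [h.2], by linarith [h.1]⟩⟩
    have h8 := tendsto_nhds_unique (((T.continuous.tendsto _).comp h5).norm.pow 2)
      (h7.comp h4.tendsto_atTop)
    rw [integral_zero, sq_eq_zero_iff, norm_eq_zero] at h8
    rw [← ae_restrict_iff' measurableSet_Icc]
    have h9 := LpToLpRestrictCLM_coeFn ℝ (Icc (-R : ℝ) R) (v : H)
    rw [← hT, h8] at h9
    filter_upwards [h9, Lp.coeFn_zero ℂ 2 (volume.restrict (Icc (-R : ℝ) R))] with t h9 h10
    rw [← h9, h10, Pi.zero_apply]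
  rw [← norm_eq_zero, ← h6, norm_eq_zero, Lp.eq_zero_iff_ae_eq_zero]
  filter_upwards [ae_all_iff.2 h7] with t ht
  obtain ⟨R, hR⟩ := exists_nat_ge |t|
  exact ht R (abs_le.1 hR)

theorem result (g : H) (A : Matrix (Fin 2) (Fin 2) ℝ) (hA : A.det ≠ 0) (P : Set (ℝ × ℝ))
    (hP : P.Finite) : ¬Uniq g (lattice A ∪ P) := by
  intro hU
  have g0 : g ≠ 0 := fun h => by
    obtain ⟨a, ha⟩ := hU (indicatorConstLp 2 (measurableSet_Icc (a := 0) (b := 1)) (by simp) 1) 0
      fun z _ => by
        have h1 : ∀ᵐ t : ℝ, g (t - z.1) = 0 :=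
          (measurePreserving_sub_right volume z.1).quasiMeasurePreserving.ae
            (Lp.eq_zero_iff_ae_eq_zero.1 h)
        have h2 : ∀ f, V g f z = 0 := fun f =>
          integral_eq_zero_of_ae (h1.mono fun t ht => by simp [ht])
        rw [h2, h2]
    have := congrArg norm ha
    rw [norm_indicatorConstLp (by simp) (by simp)] at this
    simp at this
  obtain ⟨s, e, hs, h1⟩ : ∃ s e : ℝ, s ≠ 0 ∧ ∀ z ∈ lattice A, ∃ k : ℤ, e * z.1 - z.2 * s = k := by
    have hd := A.det_fin_two
    by_cases h : A 0 0 = 0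
    · refine ⟨A 0 1 / A.det, A 1 1 / A.det,
        div_ne_zero (fun h' => hA (by simp [hd, h, h'])) hA, ?_⟩
      rintro _ ⟨m, n, rfl⟩
      exact ⟨m, by field_simp; rw [hd]; ring⟩
    · refine ⟨A 0 0 / A.det, A 1 0 / A.det, div_ne_zero h hA, ?_⟩
      rintro _ ⟨m, n, rfl⟩
      exact ⟨-n, by push_cast; field_simp; rw [hd]; ring⟩
  choose T hT using lin g
  let W : Submodule ℝ H :=
    { carrier := {u | ∀ z ∈ lattice A, T z u = exp (-2 * π * I * z.2 * z.1) * conj (T z u)}
      add_mem' := fun h1 h2 z hz => by rw [map_add, map_add, mul_add, ← h1 z hz, ← h2 z hz]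
      zero_mem' := by simp
      smul_mem' := fun c u h z hz => by
        rw [LinearMap.map_smul_of_tower, real_smul, map_mul, conj_ofReal, mul_left_comm, ← h z hz] }
  have := hP.to_subtype
  let S : H →ₗ[ℝ] P → ℝ := LinearMap.pi fun p => imLm ∘ₗ (T p).restrictScalars ℝ
  have h2 : ∀ z ∈ lattice A ∪ P, ∃ c : ℂ, ‖c‖ = 1 ∧ ∀ u ∈ W ⊓ LinearMap.ker S,
      T z u = c * conj (T z u) := by
    rintro z (hz | hz)
    · exact ⟨_, by simp [norm_exp], fun u hu => hu.1 z hz⟩
    · exact ⟨1, norm_one, fun u hu => by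
        rw [one_mul, (conj_eq_iff_im (z := T z u)).2 (congrFun hu.2 ⟨z, hz⟩)]⟩
  have h3 : (W ⊓ LinearMap.ker S).FG := by
    by_cases h : W ⊓ LinearMap.ker S = ⊥
    · exact h ▸ Submodule.fg_bot
    obtain ⟨u, hu, u0⟩ := Submodule.exists_mem_ne_zero_of_ne_bot h
    have : W ⊓ LinearMap.ker S ≤ Submodule.span ℝ {u, I • u} := fun v hv => by
      obtain ⟨a, ha⟩ := hU (u + I • v) (u - I • v) fun z hz => by
        obtain ⟨c, h3, h4⟩ := h2 z hz
        rw [hT, hT, map_add, map_sub, map_smul, smul_eq_mul, ← norm_conj (_ - _), ← one_mul ‖conj _‖,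
          ← h3, ← norm_mul, map_sub, map_mul, conj_I, mul_sub, ← h4 u hu, mul_left_comm, ← h4 v hv,
          neg_mul, sub_neg_eq_add]
      generalize exp (I * a) = c at ha
      have h3 : (I * (1 + c)) • v = (c - 1) • u := by linear_combination (norm := module) ha
      have h4 : 1 + c ≠ 0 := fun h => by
        rw [h, mul_zero, zero_smul, eq_neg_of_add_eq_zero_right h] at h3
        exact smul_ne_zero (by norm_num) u0 h3.symm
      have h5 : v = ((I * (1 + c))⁻¹ * (c - 1)) • u := by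
        rw [mul_smul, ← h3, inv_smul_smul₀ (mul_ne_zero I_ne_zero h4)]
      generalize (I * (1 + c))⁻¹ * (c - 1) = d at h5
      refine Submodule.mem_span_pair.2 ⟨d.re, d.im, ?_⟩
      rw [h5, RCLike.real_smul_eq_coe_smul (K := ℂ), RCLike.real_smul_eq_coe_smul (K := ℂ) d.im,
        smul_smul, ← add_smul]
      exact congrArg (· • u) (re_add_im d)
    have h3 : FiniteDimensional ℝ (Submodule.span ℝ {u, I • u}) :=
      FiniteDimensional.span_of_finite ℝ (toFinite _)
    exact (Submodule.fg_iff_finiteDimensional _).2 (Submodule.finiteDimensional_of_le this)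
  have h4 := (Submodule.fg_iff_finiteDimensional W).1
    (Submodule.fg_of_fg_map_of_fg_inf_ker S (IsNoetherian.noetherian _) h3)
  have h5 : ∀ n : ℕ, MemLp (fun t : ℝ => exp (2 * π * I * (n * e) * (t - n * s / 2)) *
      g (n * s - t)) 2 := fun n => by
    have h : MemLp (fun t : ℝ => g (n * s - t)) 2 :=
      (Lp.memLp g).comp_measurePreserving (Measure.measurePreserving_sub_left _ _)
    exact h.congr_norm (.mul (by fun_prop) h.1) (.of_forall fun t => by simp [norm_exp])
  refine g0 (inf W g hs (fun n => (h5 n).toLp) (fun n z hz => ?_) fun n =>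
    (h5 n).coeFn_toLp.mono fun t ht => by simp [ht, norm_exp])
  obtain ⟨k, hk⟩ := h1 z hz
  have h6 : V g (h5 n).toLp z = ∫ t : ℝ, exp (2 * π * I * (n * e) * (t - n * s / 2)) *
      g (n * s - t) * conj (g (t - z.1)) * exp (-2 * π * I * z.2 * t) :=
    integral_congr_ae ((h5 n).coeFn_toLp.mono fun t ht => by simp only [ht])
  rw [← hT, h6, ← integral_conj, ← integral_const_mul, ← integral_sub_left_eq_self _ _ (n * s + z.1)]
  refine integral_congr_ae (.of_forall fun t => ?_)
  have h7 : (e : ℂ) * z.1 - z.2 * s = k := by exact_mod_cast hk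
  have h8 : exp (2 * π * I * (n * e) * ((n * s + z.1 - t : ℝ) - n * s / 2)) *
      exp (-2 * π * I * z.2 * (n * s + z.1 - t : ℝ)) = exp (-2 * π * I * z.2 * z.1) *
      (conj (exp (2 * π * I * (n * e) * (t - n * s / 2))) * conj (exp (-2 * π * I * z.2 * t))) := by
    rw [← exp_conj, ← exp_conj, ← exp_add, ← exp_add, ← exp_add, exp_eq_exp_iff_exists_int]
    refine ⟨n * k, ?_⟩
    simp only [map_mul, map_sub, map_div₀, map_neg, conj_ofReal, conj_I, map_natCast, map_ofNat]
    push_cast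
    rw [← h7]
    ring
  simp only [map_mul, conj_conj]
  rw [show n * s - (n * s + z.1 - t) = t - z.1 by ring, show n * s + z.1 - t - z.1 = n * s - t by ring]
  linear_combination g (t - z.1) * conj (g (n * s - t)) * h8

end Pool.Agent.Results.MP_19ca7b_an.No
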